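import Pool.Agent.H678.SegObs.Main

/-!
# Segment drawing with obstacles, the embedding not fixed, is `∃ℝ`-hard

Input: a planar graph, for every vertex a line segment (open or closed) with rational end points,
and a finite list of obstacles, which are line segments.  Question: is there a crossing-free
straight-line drawing (no embedding is prescribed) with every vertex on its segment and in which no
edge crosses an obstacle?

`Inst` is an instance; `Inst.Simple` and `Inst.Planar` say that it describes a planar graph;
`Inst.IsDrawing` is a crossing-free straight-line drawing; `Inst.Solvable X` is the question, where
`X P Q s` says that the edge drawn from `P` to `Q` crosses the obstacle `s`.  The theorem holds for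
every reading of the word crosses between the narrowest one (`ProperlyCrosses`: a common point that is
an end point of neither of the two, and not parallel) and the widest one (`Meets`: a common point).

`ERHardOn Pr P` says that every language in `∃ℝ` has a polynomial-time many-one reduction to `P` all
of whose instances satisfy `Pr`.  Here all instances are planar graphs with non-degenerate
axis-parallel segments, which can all be taken closed (`cl = true`) and can all be taken open
(`cl = false`).
-/

namespace Pool.Agent.Results.MP_431574_lc.FreeEmbedding

open Pool.Agent.K4H90.SegDraw (Seg ERHardOn)
open Pool.Agent.H678.SegObs

/-- **Segment drawing with obstacles, with the embedding not fixed, is `∃ℝ`-hard**, for every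
notion `X` of crossing between proper crossing and having a common point, and even if all segments
are closed (`cl = true`) or all segments are open (`cl = false`). -/
theorem result (X : ℝ × ℝ → ℝ × ℝ → Seg → Prop)
    (h1 : ∀ P Q s, ProperlyCrosses P Q s → X P Q s) (h2 : ∀ P Q s, X P Q s → Meets P Q s)
    (cl : Bool) :
    ERHardOn (fun I : Inst => I.Simple ∧ I.Planar ∧ I.AxisParallel cl) (Inst.Solvable X) :=
  hard h1 h2 cl

end Pool.Agent.Results.MP_431574_lc.FreeEmbedding
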